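import Pool.Agent.H88.MC.Targets

/-! # HS: the hash family gives three-wise independent sets -/

set_option autoImplicit false

namespace Pool.Agent.H50.E0

open Finset Pool.Agent.H88.MC

/-- the hash value as an element of `Fin q` -/
def hv {q : ℕ} (hq : 0 < q) (ω : Fin q × Fin q × Fin q) (v : ℕ) : Fin q :=
  ⟨hs q ω.1.1 ω.2.1.1 ω.2.2.1 v, Nat.mod_lt _ hq⟩

theorem hv_cast {q : ℕ} (hq : 0 < q) (ω : Fin q × Fin q × Fin q) (v : ℕ) :
    ((hv hq ω v).1 : ZMod q) = (ω.1.1 : ZMod q) * (v : ZMod q) ^ 2 + (ω.2.1.1 : ZMod q) * v +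
      (ω.2.2.1 : ZMod q) := by
  show (((ω.1.1 * v ^ 2 + ω.2.1.1 * v + ω.2.2.1) % q : ℕ) : ZMod q) = _
  rw [ZMod.natCast_mod]
  push_cast
  ring

theorem cast_inj {q a b : ℕ} (ha : a < q) (hb : b < q) (h : (a : ZMod q) = (b : ZMod q)) :
    a = b := by
  rw [ZMod.natCast_eq_natCast_iff'] at h
  rwa [Nat.mod_eq_of_lt ha, Nat.mod_eq_of_lt hb] at h

/-- the values at three points determine the polynomial -/
theorem inj3 {q : ℕ} (hq : q.Prime) {u v w : ℕ} (hu : u < q) (hv' : v < q) (hw : w < q)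
    (huv : u ≠ v) (huw : u ≠ w) (hvw : v ≠ w) :
    Function.Injective (fun ω : Fin q × Fin q × Fin q =>
      (hv hq.pos ω u, hv hq.pos ω v, hv hq.pos ω w)) := by
  have : Fact q.Prime := ⟨hq⟩
  intro ω ω' h
  simp only [Prod.mk.injEq] at h
  obtain ⟨h1, h2, h3⟩ := h
  have e1 := hv_cast hq.pos ω u
  have e2 := hv_cast hq.pos ω v
  have e3 := hv_cast hq.pos ω w
  rw [h1, hv_cast hq.pos ω' u] at e1
  rw [h2, hv_cast hq.pos ω' v] at e2
  rw [h3, hv_cast hq.pos ω' w] at e3
  have n1 : (u : ZMod q) - v ≠ 0 := fun h => huv (cast_inj hu hv' (sub_eq_zero.1 h))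
  have n2 : (u : ZMod q) - w ≠ 0 := fun h => huw (cast_inj hu hw (sub_eq_zero.1 h))
  have n3 : (v : ZMod q) - w ≠ 0 := fun h => hvw (cast_inj hv' hw (sub_eq_zero.1 h))
  have f1 : ((ω.1.1 : ZMod q) - ω'.1.1) * (u + v) + ((ω.2.1.1 : ZMod q) - ω'.2.1.1) = 0 := by
    have : ((u : ZMod q) - v) *
        (((ω.1.1 : ZMod q) - ω'.1.1) * (u + v) + ((ω.2.1.1 : ZMod q) - ω'.2.1.1)) = 0 := by
      linear_combination e2 - e1
    exact (mul_eq_zero.1 this).resolve_left n1
  have f2 : ((ω.1.1 : ZMod q) - ω'.1.1) * (u + w) + ((ω.2.1.1 : ZMod q) - ω'.2.1.1) = 0 := by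
    have : ((u : ZMod q) - w) *
        (((ω.1.1 : ZMod q) - ω'.1.1) * (u + w) + ((ω.2.1.1 : ZMod q) - ω'.2.1.1)) = 0 := by
      linear_combination e3 - e1
    exact (mul_eq_zero.1 this).resolve_left n2
  have f3 : (ω.1.1 : ZMod q) - ω'.1.1 = 0 := by
    have : ((v : ZMod q) - w) * ((ω.1.1 : ZMod q) - ω'.1.1) = 0 := by
      linear_combination f1 - f2
    exact (mul_eq_zero.1 this).resolve_left n3
  have f4 : (ω.2.1.1 : ZMod q) - ω'.2.1.1 = 0 := by
    rw [f3, zero_mul, zero_add] at f1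
    exact f1
  have f5 : (ω.2.2.1 : ZMod q) - ω'.2.2.1 = 0 := by
    linear_combination -e1 - (u : ZMod q) ^ 2 * f3 - (u : ZMod q) * f4
  have g1 := cast_inj ω.1.2 ω'.1.2 (sub_eq_zero.1 f3)
  have g2 := cast_inj ω.2.1.2 ω'.2.1.2 (sub_eq_zero.1 f4)
  have g3 := cast_inj ω.2.2.2 ω'.2.2.2 (sub_eq_zero.1 f5)
  exact Prod.ext (Fin.ext g1) (Prod.ext (Fin.ext g2) (Fin.ext g3))

/-- three-wise independence of the values -/
theorem sum3 {q : ℕ} (hq : q.Prime) {u v w : ℕ} (hu : u < q) (hv' : v < q) (hw : w < q)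
    (huv : u ≠ v) (huw : u ≠ w) (hvw : v ≠ w) (f g l : Fin q → ℝ) :
    ∑ ω : Fin q × Fin q × Fin q,
      f (hv hq.pos ω u) * (g (hv hq.pos ω v) * l (hv hq.pos ω w)) =
      (∑ x, f x) * ((∑ x, g x) * ∑ x, l x) := by
  have hb : Function.Bijective (fun ω : Fin q × Fin q × Fin q =>
      (hv hq.pos ω u, hv hq.pos ω v, hv hq.pos ω w)) :=
    Finite.injective_iff_bijective.1 (inj3 hq hu hv' hw huv huw hvw)
  have h1 := hb.sum_comp (fun x : Fin q × Fin q × Fin q => f x.1 * (g x.2.1 * l x.2.2))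
  simp only at h1
  rw [h1, Fintype.sum_prod_type, Finset.sum_mul]
  refine Finset.sum_congr rfl fun x _ => ?_
  rw [Fintype.sum_prod_type, Finset.sum_mul, Finset.mul_sum]
  refine Finset.sum_congr rfl fun y _ => ?_
  show ∑ z : Fin q, f x * (g y * l z) = f x * (g y * ∑ z, l z)
  rw [← Finset.mul_sum, ← Finset.mul_sum]

/-- the indicator of small values -/
noncomputable def ind (q D : ℕ) (x : Fin q) : ℝ := if D * x.1 < q then 1 else 0

theorem mem_hset {q : ℕ} (hq : 0 < q) (n D : ℕ) (ω : Fin q × Fin q × Fin q) (v : Fin n) :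
    v ∈ hset n D q ω.1.1 ω.2.1.1 ω.2.2.1 ↔ D * (hv hq ω v.1).1 < q := by
  unfold hset
  rw [Finset.mem_filter]
  exact ⟨fun h => h.2, fun h => ⟨Finset.mem_univ _, h⟩⟩

theorem sum_ind {q D : ℕ} (hq : 0 < q) (hD : 1 ≤ D) :
    ∑ x : Fin q, ind q D x = (((q - 1) / D + 1 : ℕ) : ℝ) := by
  unfold ind
  rw [Fin.sum_univ_eq_sum_range (fun i => if D * i < q then (1 : ℝ) else 0) q, Finset.sum_boole]
  congr 1
  have h1 : (Finset.range q).filter (fun i => D * i < q) = Finset.range ((q - 1) / D + 1) := by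
    ext i
    rw [Finset.mem_filter, Finset.mem_range, Finset.mem_range, Nat.lt_succ_iff,
      Nat.le_div_iff_mul_le (by omega), mul_comm i D]
    constructor
    · rintro ⟨-, h⟩
      omega
    · intro h
      have h2 : i ≤ D * i := Nat.le_mul_of_pos_left i (by omega)
      omega
  rw [h1, Finset.card_range]

theorem exists_third {n : ℕ} (hn : 3 ≤ n) (u v : Fin n) : ∃ w : Fin n, u ≠ w ∧ v ≠ w := by
  by_contra h
  push Not at h
  have h1 : (Finset.univ : Finset (Fin n)) ⊆ {u, v} := by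
    intro w _
    rw [Finset.mem_insert, Finset.mem_singleton]
    by_cases h2 : u = w
    · exact Or.inl h2.symm
    · exact Or.inr (h w h2).symm
  have h2 := Finset.card_le_card h1
  rw [Finset.card_univ, Fintype.card_fin] at h2
  have h3 := Finset.card_le_two (a := u) (b := v)
  omega

theorem pf_hs : T_HS := by
  intro q n D hq hn hnq hD
  have hq0 := hq.pos
  have hqR : (0 : ℝ) < q := by exact_mod_cast hq0
  have hDR : (0 : ℝ) < D := by exact_mod_cast hD
  obtain ⟨m, hm⟩ : ∃ m : ℝ, m = ∑ x : Fin q, ind q D x := ⟨_, rfl⟩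
  have hm' := sum_ind hq0 hD
  rw [← hm] at hm'
  have hcard : (Fintype.card (Fin q × Fin q × Fin q) : ℝ) = q ^ 3 := by
    rw [Fintype.card_prod, Fintype.card_prod, Fintype.card_fin]
    push_cast
    ring
  have hone : ∑ _x : Fin q, (1 : ℝ) = q := by simp
  have lt : ∀ v : Fin n, v.1 < q := fun v => v.2.trans_le hnq
  refine ⟨m / q, ?_, ?_, ?_⟩
  · -- lower bound
    rw [div_le_div_iff₀ hDR hqR, one_mul, hm']
    have h1 : q ≤ ((q - 1) / D + 1) * D := by
      have h2 := Nat.div_add_mod (q - 1) D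
      have h3 := Nat.mod_lt (q - 1) (show 0 < D by omega)
      have h4 : ((q - 1) / D + 1) * D = D * ((q - 1) / D) + D := by ring
      omega
    exact_mod_cast h1
  · -- upper bound
    rw [div_le_iff₀ hqR, hm']
    have h1 : (((q - 1) / D : ℕ) : ℝ) ≤ ((q - 1 : ℕ) : ℝ) / D := Nat.cast_div_le
    have h2 : ((q - 1 : ℕ) : ℝ) ≤ q := by exact_mod_cast Nat.sub_le q 1
    have h3 : ((q - 1 : ℕ) : ℝ) / D ≤ q / D := by gcongr
    have h4 : (1 / (D : ℝ) + 1 / q) * q = q / D + 1 := by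
      field_simp
    rw [h4]
    push_cast
    linarith
  · constructor
    · intro u
      obtain ⟨v, huv, -⟩ := exists_third hn u u
      obtain ⟨w, huw, hvw⟩ := exists_third hn u v
      have h1 := sum3 hq (lt u) (lt v) (lt w) (fun h => huv (Fin.ext h))
        (fun h => huw (Fin.ext h)) (fun h => hvw (Fin.ext h)) (ind q D) (fun _ => 1) (fun _ => 1)
      rw [← hm, hone] at h1
      rw [hcard]
      calc ∑ ω : Fin q × Fin q × Fin q,
            (if u ∈ hset n D q ω.1.1 ω.2.1.1 ω.2.2.1 then (1 : ℝ) else 0)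
          = ∑ ω : Fin q × Fin q × Fin q, ind q D (hv hq.pos ω u) * ((1 : ℝ) * 1) := by
            refine Finset.sum_congr rfl fun ω _ => ?_
            unfold ind
            rw [mul_one, mul_one]
            exact if_congr (mem_hset hq0 n D ω u) rfl rfl
        _ = m * (q * q) := h1
        _ = m / q * q ^ 3 := by field_simp
    · intro u v huv
      obtain ⟨w, huw, hvw⟩ := exists_third hn u v
      have h1 := sum3 hq (lt u) (lt v) (lt w) (fun h => huv (Fin.ext h))
        (fun h => huw (Fin.ext h)) (fun h => hvw (Fin.ext h)) (ind q D) (ind q D) (fun _ => 1)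
      rw [← hm, hone] at h1
      rw [hcard]
      calc ∑ ω : Fin q × Fin q × Fin q, (if u ∈ hset n D q ω.1.1 ω.2.1.1 ω.2.2.1 ∧
            v ∈ hset n D q ω.1.1 ω.2.1.1 ω.2.2.1 then (1 : ℝ) else 0)
          = ∑ ω : Fin q × Fin q × Fin q, ind q D (hv hq.pos ω u) *
              (ind q D (hv hq.pos ω v) * 1) := by
            refine Finset.sum_congr rfl fun ω _ => ?_
            have a1 := mem_hset hq0 n D ω u
            have a2 := mem_hset hq0 n D ω v
            unfold ind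
            by_cases b1 : D * (hv hq0 ω u.1).1 < q <;>
              by_cases b2 : D * (hv hq0 ω v.1).1 < q <;> simp [a1, a2, b1, b2]
        _ = m * (m * q) := h1
        _ = (m / q) ^ 2 * q ^ 3 := by field_simp
    · intro u v w huv huw hvw
      have h1 := sum3 hq (lt u) (lt v) (lt w) (fun h => huv (Fin.ext h))
        (fun h => huw (Fin.ext h)) (fun h => hvw (Fin.ext h)) (ind q D) (ind q D) (ind q D)
      rw [← hm] at h1
      rw [hcard]
      calc ∑ ω : Fin q × Fin q × Fin q, (if u ∈ hset n D q ω.1.1 ω.2.1.1 ω.2.2.1 ∧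
            v ∈ hset n D q ω.1.1 ω.2.1.1 ω.2.2.1 ∧
            w ∈ hset n D q ω.1.1 ω.2.1.1 ω.2.2.1 then (1 : ℝ) else 0)
          = ∑ ω : Fin q × Fin q × Fin q, ind q D (hv hq.pos ω u) *
              (ind q D (hv hq.pos ω v) * ind q D (hv hq.pos ω w)) := by
            refine Finset.sum_congr rfl fun ω _ => ?_
            have a1 := mem_hset hq0 n D ω u
            have a2 := mem_hset hq0 n D ω v
            have a3 := mem_hset hq0 n D ω w
            unfold ind
            by_cases b1 : D * (hv hq0 ω u.1).1 < q <;>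
              by_cases b2 : D * (hv hq0 ω v.1).1 < q <;>
                by_cases b3 : D * (hv hq0 ω w.1).1 < q <;> simp [a1, a2, a3, b1, b2, b3]
        _ = m * (m * m) := h1
        _ = (m / q) ^ 3 * q ^ 3 := by field_simp

end Pool.Agent.H50.E0
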